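import Pool.Agent.Run7.h900.MX.Stm

set_option autoImplicit false

/-!
# Project MX (helper900), piece NF: finite groups with all normal complements
-/

universe u

namespace Run7.h300.MX

open Run7.h900.MX

variable {Γ : Type u} [Group Γ]

theorem mem_of_coprime {K : Subgroup Γ} {x : Γ} {a b : ℕ} (hab : a.Coprime b) (ha : x ^ a = 1)
    (hb : x ^ b ∈ K) : x ∈ K := by
  have h1 : (a : ℤ) * Nat.gcdA a b + (b : ℤ) * Nat.gcdB a b = 1 := by
    have := Nat.gcd_eq_gcd_ab a b
    rw [hab] at this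
    exact_mod_cast this.symm
  have h2 : x = (x ^ b) ^ Nat.gcdB a b := by
    calc x = x ^ ((a : ℤ) * Nat.gcdA a b + (b : ℤ) * Nat.gcdB a b) := by rw [h1, zpow_one]
      _ = (x ^ b) ^ Nat.gcdB a b := by
          rw [zpow_add, zpow_mul, zpow_mul, zpow_natCast, zpow_natCast, ha, one_zpow, one_mul]
  rw [h2]
  exact K.zpow_mem hb _

/-- The piece NF. -/
theorem t_NF : S_NF.{u} := by
  intro Γ _ _ N hN π hπ hdiv
  choose! K hK using fun p hp => (hπ p hp).2
  have hpr : ∀ p ∈ π, p.Prime := fun p hp => (hπ p hp).1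
  -- `p`-elements are in the other complements
  have h1 : ∀ p ∈ π, ∀ x ∈ N, (∃ k : ℕ, x ^ p ^ k = 1) → ∀ q ∈ π, q ≠ p → x ∈ K q := by
    rintro p hp x hx ⟨k, hk⟩ q hq hqp
    obtain ⟨m, hm⟩ := (hK q hq).2.2.2 x hx
    exact mem_of_coprime (Nat.Coprime.pow k m
      ((Nat.coprime_primes (hpr p hp) (hpr q hq)).2 hqp.symm)) hk hm
  have h2 : ∀ p ∈ π, ∀ x ∈ N, (∀ q ∈ π, q ≠ p → x ∈ K q) → ∃ k : ℕ, x ^ p ^ k = 1 := by
    intro p hp x hx hxK
    refine ⟨(orderOf x).primeFactorsList.length, ?_⟩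
    rw [← Nat.eq_prime_pow_of_unique_prime_dvd (orderOf_pos x).ne' ?_]
    · exact pow_orderOf_eq_one x
    · intro q hq hqx
      by_contra hqp
      have hqN : q ∣ Nat.card N := by
        refine hqx.trans ?_
        have : orderOf (⟨x, hx⟩ : N) ∣ Nat.card N := orderOf_dvd_natCard _
        rwa [Subgroup.orderOf_mk] at this
      have hqπ := hdiv q hq hqN
      have hxq := hxK q hqπ hqp
      apply (hK q hqπ).2.2.1
      refine hqx.trans ?_
      have : orderOf (⟨x, hxq⟩ : K q) ∣ Nat.card (K q) := orderOf_dvd_natCard _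
      rwa [Subgroup.orderOf_mk] at this
  refine ⟨?_, ?_⟩
  · intro p hp x hx y hy hxp hyp
    refine h2 p hp (x * y) (N.mul_mem hx hy) fun q hq hqp => ?_
    exact (K q).mul_mem (h1 p hp x hx hxp q hq hqp) (h1 p hp y hy hyp q hq hqp)
  · intro p hp q hq hpq x hx y hy hxp hyq
    have hx1 := h1 p hp x hx hxp
    have hy1 := h1 q hq y hy hyq
    set z : Γ := x * y * x⁻¹ * y⁻¹ with hz
    have hzN : z ∈ N := N.mul_mem (N.mul_mem (N.mul_mem hx hy) (N.inv_mem hx)) (N.inv_mem hy)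
    have hzp : ∃ k : ℕ, z ^ p ^ k = 1 := by
      refine h2 p hp z hzN fun r hr hrp => ?_
      have hxr := hx1 r hr hrp
      have := (hK r hr).1.conj_mem _ ((K r).inv_mem hxr) y
      have e : z = x * (y * x⁻¹ * y⁻¹) := by rw [hz]; group
      rw [e]
      exact (K r).mul_mem hxr this
    have hzq : ∃ k : ℕ, z ^ q ^ k = 1 := by
      refine h2 q hq z hzN fun r hr hrq => ?_
      have hyr := hy1 r hr hrq
      have := (hK r hr).1.conj_mem _ hyr x
      rw [hz]
      exact (K r).mul_mem this ((K r).inv_mem hyr)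
    obtain ⟨k, hk⟩ := hzp
    obtain ⟨m, hm⟩ := hzq
    have hz1 : z ∈ (⊥ : Subgroup Γ) := by
      refine mem_of_coprime (Nat.Coprime.pow k m
        ((Nat.coprime_primes (hpr p hp) (hpr q hq)).2 hpq)) hk ?_
      rw [Subgroup.mem_bot]
      exact hm
    rw [Subgroup.mem_bot, hz] at hz1
    have h5 : x * y * x⁻¹ = y := mul_inv_eq_one.1 hz1
    calc x * y = x * y * x⁻¹ * x := by group
      _ = y * x := by rw [h5]

end Run7.h300.MX
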